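import Pool.Agent.MP_9cfd17_nt.Core

/-! The extrapolation inequality for dilated nodes `x0 - y * s i`. -/

namespace Pool.Agent.MP_9cfd17_nt

open Complex Metric Filter Topology

theorem keyA (hV : VanishStmt) (hS : SchwarzStmt) (hT : TaylorStmt) (hC : CoefStmt) (hL : LgStmt)
    {ι : Type} (T : Finset ι) (s : ι → ℕ) (Q : ι → ℤ) (α V B S x0 η R : ℝ) (Y : Finset ℕ)
    (hα : 0 < α) (hV1 : 1 ≤ V)
    (hgap : ∀ i ∈ T, ∀ i' ∈ T, i ≠ i' → α ≤ |(s i : ℝ) - s i'| ∧ |(s i : ℝ) - s i'| ≤ α * V)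
    (hQ : ∃ i ∈ T, Q i ≠ 0) (hB : (∑ i ∈ T, |(Q i : ℝ)|) ≤ B) (h0 : ∑ i ∈ T, Q i = 0)
    (hs : ∀ i ∈ T, (s i : ℝ) ≤ S) (hS1 : 1 ≤ S) (hR : 1 ≤ R)
    (hY : ∀ y ∈ Y, 1 ≤ y ∧ (y : ℝ) ≤ R) (hx : 4 * S * R ≤ x0) (hη : 0 ≤ η)
    (happ : ∀ y ∈ Y, |∑ i ∈ T, (Q i : ℝ) * ff (x0 - y * s i)| ≤ η)
    (hj : 200 * (2 + √V * Real.log (2 * B)) ^ 3 ≤ √x0) :
    ∃ j : ℕ, (j : ℝ) ≤ 2 + √V * Real.log (2 * B) ∧
      1 ≤ B * (9 * √x0) * (2 * S) ^ j * (4 * S * R / x0) ^ Y.card +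
        Y.card * (η * x0 ^ j * R ^ Y.card) := by
  classical
  obtain ⟨j, hj1, hj2, hmom, hne⟩ := order_core hV T s Q α V B hα hV1 hgap hQ hB h0
  refine ⟨j, hj2, ?_⟩
  obtain ⟨hsqd, hsqb, -, hLb, hff, hC1, hC2⟩ := id hL
  have hx4 : 4 ≤ x0 := by nlinarith
  have hx0 : 0 < x0 := by linarith
  have hS0 : 0 < S := by linarith
  have hsx : 2 ≤ √x0 := by
    rw [show (2 : ℝ) = √4 by rw [show (4 : ℝ) = 2 ^ 2 by norm_num, Real.sqrt_sq (by norm_num)]]
    exact Real.sqrt_le_sqrt hx4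
  have hj1' : (1 : ℝ) ≤ j := by exact_mod_cast hj1
  have hj3 : 200 * (j : ℝ) ^ 3 ≤ √x0 := by
    refine le_trans ?_ hj
    have : (j : ℝ) ^ 3 ≤ (2 + √V * Real.log (2 * B)) ^ 3 := pow_le_pow_left₀ (by positivity) hj2 3
    linarith
  have hB0 : 0 ≤ B := le_trans (Finset.sum_nonneg fun _ _ => abs_nonneg _) hB
  set lam : ℝ := CC * √x0 with hlam
  have hlam1 : 500 * (j : ℝ) ^ 3 ≤ lam := by rw [hlam]; nlinarith [pow_pos (show (0:ℝ) < j by linarith) 3]
  have hj3' : (j : ℝ) ≤ (j : ℝ) ^ 3 := by nlinarith [sq_nonneg ((j : ℝ) - 1), sq_nonneg (j : ℝ)]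
  have hlam0 : 0 < lam := by linarith
  set e : ℂ := ((1 / lam : ℝ) : ℂ) with he
  have hen : ‖e‖ = 1 / lam := by
    rw [he, Complex.norm_real, Real.norm_of_nonneg (by positivity)]
  have he1 : ‖e‖ ≤ 1 / (4 * ((j : ℝ) + 1)) := by
    rw [hen]; exact one_div_le_one_div_of_le (by positivity) (by linarith)
  have he2 : ‖e‖ < 1 / 4 := by
    rw [hen]; exact one_div_lt_one_div_of_lt (by norm_num) (by linarith)
  have hLd := lg_diff_core hL e he2
  set Φ : ℂ → ℂ := fun u => ∑ i ∈ T, (Q i : ℂ) * ((lam : ℂ) * sq (s i * u) + Lg e (s i * u)) with hΦ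
  set μ : ℤ := ∑ i ∈ T, Q i * (s i : ℤ) ^ j with hμ
  set c1 : ℂ := iteratedDeriv j sq 0 / (j.factorial : ℂ) with hc1
  set c2 : ℂ := iteratedDeriv j (Lg e) 0 / (j.factorial : ℂ) with hc2
  have hnorm : ∀ i ∈ T, ∀ u : ℂ, ‖(s i : ℂ) * u‖ ≤ S * ‖u‖ := by
    intro i hi u
    rw [norm_mul, Complex.norm_natCast]
    exact mul_le_mul_of_nonneg_right (hs i hi) (norm_nonneg _)
  have hdiff : DifferentiableOn ℂ Φ (ball 0 (6 / 5 * (1 / (2 * S)))) := by
    refine DifferentiableOn.fun_sum fun i hi => DifferentiableOn.const_mul ?_ _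
    have hmaps : Set.MapsTo (fun u : ℂ => (s i : ℂ) * u) (ball 0 (6 / 5 * (1 / (2 * S))))
        (ball 0 (3 / 4)) := by
      intro u hu
      have hu' : ‖u‖ < 6 / 5 * (1 / (2 * S)) := by simpa using hu
      have h1 := hnorm i hi u
      have h2 : S * ‖u‖ ≤ S * (6 / 5 * (1 / (2 * S))) := mul_le_mul_of_nonneg_left hu'.le hS0.le
      have h3 : S * (6 / 5 * (1 / (2 * S))) = 3 / 5 := by field_simp; ring
      simp only [mem_ball, dist_zero_right]
      linarith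
    have hlin : DifferentiableOn ℂ (fun u : ℂ => (s i : ℂ) * u) (ball 0 (6 / 5 * (1 / (2 * S)))) := by
      fun_prop
    exact ((hsqd.comp hlin hmaps).const_mul _).add (hLd.comp hlin hmaps)
  have hbound : ∀ u ∈ sphere (0 : ℂ) (1 / (2 * S)), ‖Φ u‖ ≤ B * (9 * √x0) := by
    intro u hu
    have hu' : ‖u‖ = 1 / (2 * S) := by simpa using hu
    refine sum_bound_core T Q B _ _ (by positivity) hB fun i hi => ?_
    have h1 : ‖(s i : ℂ) * u‖ ≤ 1 / 2 := by
      refine (hnorm i hi u).trans (le_of_eq ?_)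
      rw [hu']; field_simp
    have h2 := hsqb _ (by simpa using h1 : (s i : ℂ) * u ∈ closedBall (0 : ℂ) (1 / 2))
    have h3 := hLb e _ he2.le h1
    calc _ ≤ ‖(lam : ℂ) * sq (s i * u)‖ + ‖Lg e (s i * u)‖ := norm_add_le _ _
      _ ≤ lam * 2 + 5 := by
          rw [norm_mul, Complex.norm_real, Real.norm_of_nonneg hlam0.le]
          exact add_le_add (mul_le_mul_of_nonneg_left h2 hlam0.le) h3
      _ ≤ _ := by rw [hlam]; nlinarith
  have htend : Tendsto (fun u => Φ u / u ^ j) (𝓝[≠] 0) (𝓝 ((lam * c1 + c2) * μ)) := by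
    refine tendsto_core Φ _ j ((lam * (B * (2 * 2)) + B * (2 * 5)) * (2 * S) ^ (j + 1))
      (1 / (4 * S)) (by positivity) fun u hu => ?_
    have hv : S * ‖u‖ ≤ 1 / 4 := by
      refine (mul_le_mul_of_nonneg_left hu hS0.le).trans (le_of_eq ?_)
      field_simp
    have h1 := comb_core hT T s Q B S 2 j sq hsqd hsqb hs hB hmom u hS0.le hv
    have h2 := comb_core hT T s Q B S 5 j (Lg e) hLd
      (fun w hw => hLb e w he2.le (by simpa using hw)) hs hB hmom u hS0.le hv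
    have h3 : Φ u - (lam * c1 + c2) * μ * u ^ j =
        lam * (∑ i ∈ T, (Q i : ℂ) * sq (s i * u) - c1 * μ * u ^ j) +
        (∑ i ∈ T, (Q i : ℂ) * Lg e (s i * u) - c2 * μ * u ^ j) := by
      have : Φ u = lam * ∑ i ∈ T, (Q i : ℂ) * sq (s i * u) + ∑ i ∈ T, (Q i : ℂ) * Lg e (s i * u) := by
        rw [hΦ, Finset.mul_sum, ← Finset.sum_add_distrib]
        refine Finset.sum_congr rfl fun i _ => ?_
        ring
      rw [this]; ring
    rw [h3]
    calc _ ≤ ‖(lam : ℂ) * (∑ i ∈ T, (Q i : ℂ) * sq (s i * u) - c1 * μ * u ^ j)‖ +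
          ‖∑ i ∈ T, (Q i : ℂ) * Lg e (s i * u) - c2 * μ * u ^ j‖ := norm_add_le _ _
      _ ≤ lam * (B * (2 * 2 * (2 * S * ‖u‖) ^ (j + 1))) +
          B * (2 * 5 * (2 * S * ‖u‖) ^ (j + 1)) := by
          rw [norm_mul, Complex.norm_real, Real.norm_of_nonneg hlam0.le]
          exact add_le_add (mul_le_mul_of_nonneg_left h1 hlam0.le) h2
      _ = _ := by rw [mul_pow (2 * S)]; ring
  have hωn : ∀ y : ℕ, ‖((-(y : ℝ) / x0 : ℝ) : ℂ)‖ = y / x0 := by
    intro y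
    rw [Complex.norm_real, Real.norm_eq_abs, abs_div, abs_neg, abs_of_pos hx0, Nat.abs_cast]
  have hmain := hS ℕ Y (fun y => ((-(y : ℝ) / x0 : ℝ) : ℂ)) Φ (1 / (2 * S)) (R / x0)
    (B * (9 * √x0)) j _ (by positivity)
    (by rw [← mul_div_assoc, div_le_div_iff₀ hx0 (by positivity)]; linarith) hdiff hbound htend
    (by
      intro y _ y' _ h
      have h1 : -(y : ℝ) / x0 = -(y' : ℝ) / x0 := Complex.ofReal_injective h
      field_simp at h1
      exact_mod_cast neg_injective h1)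
    (by
      intro y hy
      obtain ⟨h1, h2⟩ := hY y hy
      have h1' : (1 : ℝ) ≤ y := by exact_mod_cast h1
      refine ⟨?_, ?_⟩
      · rw [← norm_pos_iff, hωn]; positivity
      · rw [hωn]; exact div_le_div_of_nonneg_right h2 hx0.le)
  have hlow : 1 ≤ ‖((lam : ℂ) * c1 + c2) * μ‖ := by
    rw [norm_mul]
    have h1 := one_le_norm_int_core μ hne
    have h2 := (hC j hj1).1
    have h3 := (hC j hj1).2 e he1
    have h4 : ‖(lam : ℂ) * c1‖ - ‖c2‖ ≤ ‖(lam : ℂ) * c1 + c2‖ := by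
      have := norm_sub_le ((lam : ℂ) * c1 + c2) c2
      rw [add_sub_cancel_right] at this
      linarith
    rw [norm_mul, Complex.norm_real, Real.norm_of_nonneg hlam0.le] at h4
    have h5 : 125 * (j : ℝ) ≤ lam * ‖c1‖ := by
      have h6 : 500 * (j : ℝ) ^ 3 * (1 / (4 * (j : ℝ) ^ 2)) ≤ lam * ‖c1‖ :=
        mul_le_mul hlam1 h2 (by positivity) hlam0.le
      have h7 : 500 * (j : ℝ) ^ 3 * (1 / (4 * (j : ℝ) ^ 2)) = 125 * j := by field_simp; ring
      linarith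
    have h8 : 1 ≤ ‖(lam : ℂ) * c1 + c2‖ := by linarith
    nlinarith
  refine hlow.trans (hmain.trans (add_le_add (le_of_eq ?_) ?_))
  · have h1 : 2 * (R / x0) / (1 / (2 * S)) = 4 * S * R / x0 := by field_simp; ring
    rw [h1, one_div, inv_pow, div_inv_eq_mul]
  · rw [← nsmul_eq_mul]
    refine Finset.sum_le_card_nsmul _ _ _ fun y hy => ?_
    obtain ⟨h1, h2⟩ := hY y hy
    have h1' : (1 : ℝ) ≤ y := by exact_mod_cast h1
    have hval : Φ ((-(y : ℝ) / x0 : ℝ) : ℂ) =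
        ((∑ i ∈ T, (Q i : ℝ) * ff (x0 - y * s i) : ℝ) : ℂ) := by
      have h0' : ∑ i ∈ T, (Q i : ℂ) = 0 := by exact_mod_cast h0
      have h3 : ∀ i ∈ T, (Q i : ℂ) * ((lam : ℂ) * sq (s i * ((-(y : ℝ) / x0 : ℝ) : ℂ)) +
          Lg e (s i * ((-(y : ℝ) / x0 : ℝ) : ℂ))) =
          (((Q i : ℝ) * ff (x0 - y * s i) : ℝ) : ℂ) + (Real.log x0 : ℝ) * (Q i : ℂ) := by
        intro i hi
        have hu : |(s i : ℝ) * (-(y : ℝ) / x0)| ≤ 1 / 2 := by
          rw [abs_mul, abs_div, abs_neg, abs_of_pos hx0, Nat.abs_cast, Nat.abs_cast,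
            ← mul_div_assoc, div_le_iff₀ hx0]
          have : (s i : ℝ) * y ≤ S * R := mul_le_mul (hs i hi) h2 (by positivity) hS0.le
          nlinarith
        have h4 := hff x0 _ hx4 hu
        have h5 : x0 * (1 + (s i : ℝ) * (-(y : ℝ) / x0)) = x0 - y * s i := by field_simp; ring
        rw [h5] at h4
        have h6 : (((s i : ℝ) * (-(y : ℝ) / x0) : ℝ) : ℂ) =
            (s i : ℂ) * ((-(y : ℝ) / x0 : ℝ) : ℂ) := by push_cast; ring
        rw [h6] at h4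
        rw [Complex.ofReal_mul (Q i : ℝ), h4]
        simp only [Complex.ofReal_intCast]
        ring
      rw [hΦ]
      simp only
      rw [Finset.sum_congr rfl h3, Finset.sum_add_distrib, ← Finset.mul_sum, h0', mul_zero,
        add_zero, Complex.ofReal_sum]
    have hA : ‖Φ ((-(y : ℝ) / x0 : ℝ) : ℂ)‖ / ‖((-(y : ℝ) / x0 : ℝ) : ℂ)‖ ^ j ≤ η * x0 ^ j := by
      rw [hval, Complex.norm_real, Real.norm_eq_abs, hωn, div_pow, div_div_eq_mul_div]
      refine (div_le_self (by positivity) (one_le_pow₀ h1')).trans ?_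
      exact mul_le_mul_of_nonneg_right (happ y hy) (by positivity)
    have hP : ∏ y' ∈ Y.erase y, ‖((-(y' : ℝ) / x0 : ℝ) : ℂ)‖ /
        ‖((-(y : ℝ) / x0 : ℝ) : ℂ) - ((-(y' : ℝ) / x0 : ℝ) : ℂ)‖ ≤ R ^ Y.card := by
      calc _ ≤ ∏ _y' ∈ Y.erase y, R := by
            refine Finset.prod_le_prod (fun _ _ => by positivity) fun y' hy' => ?_
            obtain ⟨hne', hy''⟩ := Finset.mem_erase.mp hy'
            have h3 : ‖((-(y : ℝ) / x0 : ℝ) : ℂ) - ((-(y' : ℝ) / x0 : ℝ) : ℂ)‖ =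
                |(y' : ℝ) - y| / x0 := by
              rw [← Complex.ofReal_sub, Complex.norm_real, Real.norm_eq_abs, ← sub_div, abs_div,
                abs_of_pos hx0]
              congr 2; ring
            have h4 : (1 : ℝ) ≤ |(y' : ℝ) - y| := by
              have : (1 : ℤ) ≤ |(y' : ℤ) - y| :=
                Int.one_le_abs (sub_ne_zero.mpr (by exact_mod_cast hne'))
              exact_mod_cast this
            rw [h3, hωn, div_div_div_cancel_right₀ hx0.ne']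
            exact (div_le_self (by positivity) h4).trans (hY y' hy'').2
        _ = R ^ (Y.erase y).card := Finset.prod_const R
        _ ≤ _ := pow_le_pow_right₀ hR Finset.card_erase_le
    exact mul_le_mul hA hP (Finset.prod_nonneg fun _ _ => by positivity) (by positivity)

end Pool.Agent.MP_9cfd17_nt
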