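import Pool.Agent.MP_9cfd17_nt.KeyA
import Pool.Agent.MP_9cfd17_nt.NumA

/-! Theorem A from the stub statements. -/

namespace Pool.Agent.MP_9cfd17_nt

open Filter Topology

theorem thmA (hA : AsymStmt) (hV : VanishStmt) (hS : SchwarzStmt) (hT : TaylorStmt)
    (hC : CoefStmt) (hL : LgStmt) (hG : SiegelStmt) :
    ∃ n0 : ℕ, ∀ n : ℕ, n0 ≤ n → ∃ P : Finset ℕ,
      Real.exp (1 / 160 * Real.log n / Real.log (Real.log n)) ≤ P.card ∧
      ∀ p ∈ P, p.Prime ∧ ∃ k : ℕ, 1 ≤ k ∧ k ≤ n - 3 ∧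
        p ∣ FF (k + Nat.totient (n - k) / 2) := by
  classical
  obtain ⟨c, κ, hc, m0, hm⟩ := hA
  have hlog : Tendsto (fun n : ℕ => Real.log n) atTop atTop :=
    Real.tendsto_log_atTop.comp tendsto_natCast_atTop_atTop
  have hev : ∀ᶠ n : ℕ in atTop, (10 : ℝ) ^ 60 ≤ Real.log n ∧ 14 * (84 / c) ≤ Real.log n ∧
      4 * m0 ≤ n ∧ 1 ≤ n :=
    (hlog.eventually_ge_atTop _).and ((hlog.eventually_ge_atTop _).and
      ((eventually_ge_atTop _).and (eventually_ge_atTop _)))
  obtain ⟨n0, hn0⟩ := eventually_atTop.mp hev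
  refine ⟨n0, fun n hn => ?_⟩
  obtain ⟨hl, hlc, hnm, hn1⟩ := hn0 n hn
  refine ⟨(Finset.Icc 1 (n - 3)).biUnion
    (fun k => (FF (k + Nat.totient (n - k) / 2)).primeFactors), ?_, ?_⟩
  swap
  · intro p hp
    obtain ⟨k, hk, hp'⟩ := Finset.mem_biUnion.mp hp
    exact ⟨Nat.prime_of_mem_primeFactors hp', k, (Finset.mem_Icc.mp hk).1,
      (Finset.mem_Icc.mp hk).2, Nat.dvd_of_mem_primeFactors hp'⟩
  set P := (Finset.Icc 1 (n - 3)).biUnion
    (fun k => (FF (k + Nat.totient (n - k) / 2)).primeFactors) with hP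
  by_contra hlt
  rw [not_le] at hlt
  set l := Real.log n with hldef
  obtain ⟨z, W, hz3, hR, hJ11, hW1, hW4, hWJ, hK⟩ := paramA l hl
  set E := Real.exp (1 / 160 * l / Real.log l) with hE
  set v := Real.exp (l / 14) with hv
  set R := primorial z with hRdef
  set Y := R.divisors with hY
  set T := (Nat.primesLE W).filter (fun p => z < p) with hT'
  have hn0' : (0 : ℝ) < n := by exact_mod_cast hn1
  have hnv : (n : ℝ) = v ^ 14 := by
    rw [hv, ← Real.exp_nat_mul, ← Real.exp_log hn0']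
    congr 1
    push_cast
    ring
  have hvl : l / 14 + 1 ≤ v := Real.add_one_le_exp _
  have hv400 : 400 ≤ v := by linarith
  have hv0 : 0 < v := by linarith
  have hv1 : 1 ≤ v := by linarith
  have hvc : 84 ≤ c * v := by
    have h1 : 84 / c ≤ v := by linarith
    rw [div_le_iff₀ hc] at h1
    linarith
  have hRpos : 0 < R := primorial_pos z
  have hR3 : 2 < R := by
    have := primorial_mono hz3
    have h2 : primorial 3 = 6 := by decide
    omega
  obtain ⟨h, hh⟩ := Nat.totient_even hR3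
  have hh' : Nat.totient R = 2 * h := by omega
  have hhR : 2 * h ≤ R := hh' ▸ Nat.totient_le R
  have hR1 : (1 : ℝ) ≤ R := by exact_mod_cast hRpos
  have hJR : (Y.card : ℝ) ≤ R := by exact_mod_cast Nat.card_divisors_le_self _
  have hJ11' : (11 : ℝ) ≤ Y.card := by exact_mod_cast hJ11
  have hTW : ∀ p ∈ T, p.Prime ∧ z < p ∧ p ≤ W := by
    intro p hp
    obtain ⟨h1, h2⟩ := Finset.mem_filter.mp hp
    exact ⟨(Nat.mem_primesLE.mp h1).2, h2, (Nat.mem_primesLE.mp h1).1⟩
  have hYR : ∀ y ∈ Y, 1 ≤ y ∧ (y : ℝ) ≤ R := by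
    intro y hy
    exact ⟨Nat.pos_of_mem_divisors hy, by exact_mod_cast Nat.divisor_le hy⟩
  have hKW : (T.card : ℝ) ≤ v ^ 4 := by
    refine le_trans ?_ hW4
    have : T.card ≤ (Finset.Icc 1 W).card := Finset.card_le_card fun p hp =>
      Finset.mem_Icc.mpr ⟨(hTW p hp).1.pos, (hTW p hp).2.2⟩
    rw [Nat.card_Icc, Nat.add_sub_cancel] at this
    exact_mod_cast this
  set s : ℕ → ℕ := fun p => (R - h) * p + h with hs
  have hsS : ∀ p ∈ T, (s p : ℝ) ≤ R * W := by
    intro p hp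
    obtain ⟨h1, -, h3⟩ := hTW p hp
    have h4 : s p ≤ R * W := by
      have h5 : h ≤ h * p := Nat.le_mul_of_pos_right h h1.pos
      calc s p ≤ (R - h) * p + h * p := Nat.add_le_add_left h5 _
        _ = R * p := by rw [← add_mul, Nat.sub_add_cancel (by omega)]
        _ ≤ _ := Nat.mul_le_mul_left _ h3
    exact_mod_cast h4
  have hRW : (R : ℝ) * W ≤ v ^ 6 := by
    calc (R : ℝ) * W ≤ v ^ 2 * v ^ 4 := mul_le_mul hR hW4 (by positivity) (by positivity)
      _ = _ := by ring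
  have hRWR : (R : ℝ) * W * R ≤ v ^ 8 := by
    calc (R : ℝ) * W * R ≤ v ^ 6 * v ^ 2 := mul_le_mul hRW hR (by positivity) (by positivity)
      _ = _ := by ring
  have hv8 : 8 * v ^ 8 ≤ v ^ 14 := by
    have h1 : 8 ≤ v ^ 6 := le_trans (by linarith) (le_self_pow₀ hv1 (by norm_num))
    calc 8 * v ^ 8 ≤ v ^ 6 * v ^ 8 := mul_le_mul_of_nonneg_right h1 (by positivity)
      _ = _ := by ring
  have hv81 : 1 ≤ v ^ 8 := one_le_pow₀ hv1
  set mm : ℕ → ℕ → ℕ := fun p y => (n - R * p * y) + Nat.totient (n - (n - R * p * y)) / 2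
    with hmm
  have hnode : ∀ p ∈ T, ∀ y ∈ Y, (mm p y : ℝ) = n - y * s p ∧ (n : ℝ) / 4 ≤ mm p y ∧
      mm p y ≤ n ∧ (n - R * p * y) ∈ Finset.Icc 1 (n - 3) := by
    intro p hp y hy
    obtain ⟨h1, h2, h3⟩ := hTW p hp
    obtain ⟨h4, h5⟩ := hYR y hy
    have h6 : ((R * p * y : ℕ) : ℝ) ≤ R * W * R := by
      push_cast
      have : (p : ℝ) ≤ W := by exact_mod_cast h3
      gcongr
    have h7 : R * p * y + 1 ≤ n := by
      have : ((R * p * y : ℕ) : ℝ) + 1 ≤ n := by rw [hnv]; linarith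
      exact_mod_cast this
    have h8 := node_eq z h p y n hh' h1 h2 h4 (Nat.dvd_of_mem_divisors hy) (Nat.le_of_succ_le h7)
    have h9 : mm p y + y * s p = n := h8
    have h10 : (mm p y : ℝ) + y * s p = n := by exact_mod_cast h9
    have h11 : (y : ℝ) * s p ≤ R * (R * W) :=
      mul_le_mul h5 (hsS p hp) (by positivity) (by positivity)
    have h12 : 3 ≤ R * p * y :=
      le_trans (by omega) ((Nat.le_mul_of_pos_right R h1.pos).trans (Nat.le_mul_of_pos_right _ h4))
    refine ⟨by linarith, by nlinarith, by omega, Finset.mem_Icc.mpr ⟨by omega, by omega⟩⟩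
  have hm' : ∀ p ∈ T, ∀ y ∈ Y, m0 ≤ mm p y := by
    intro p hp y hy
    have h1 := (hnode p hp y hy).2.1
    have h2 : (4 * m0 : ℝ) ≤ n := by exact_mod_cast hnm
    have : (m0 : ℝ) ≤ mm p y := by linarith
    exact_mod_cast this
  have hE1 : 1 ≤ E := by
    have := growA l hl
    have h2 : 1 ≤ l ^ 3 := one_le_pow₀ (by linarith)
    linarith
  obtain ⟨Q, hQ, hB, h0, hrel⟩ := hG ℕ ℕ T Y P (fun p y => FF (mm p y)) n
    (by exact_mod_cast hn1)
    (by
      intro p hp y hy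
      obtain ⟨h1, h2, -⟩ := hm _ (hm' p hp y hy)
      obtain ⟨-, -, h3, h4⟩ := hnode p hp y hy
      refine ⟨h1, h2.trans (by exact_mod_cast h3), fun q hq hqd => ?_⟩
      exact Finset.mem_biUnion.mpr ⟨_, h4, Nat.mem_primeFactors.mpr ⟨hq, hqd, h1.ne'⟩⟩)
    (by
      have h1 : (P.card : ℝ) * Y.card ≤ E * Y.card :=
        mul_le_mul_of_nonneg_right hlt.le (Nat.cast_nonneg _)
      have h2 : 1 ≤ E * Y.card := one_le_mul_of_one_le_of_one_le hE1 (by linarith)
      have h3 : 2 * ((P.card : ℝ) * Y.card + 1) ≤ T.card := by linarith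
      exact_mod_cast h3)
  set B : ℝ := 2 * n * (T.card : ℝ) ^ 2 with hBdef
  have hB22 : B ≤ 2 * v ^ 22 := by
    calc B ≤ 2 * n * (v ^ 4) ^ 2 := 
          mul_le_mul_of_nonneg_left (pow_le_pow_left₀ (Nat.cast_nonneg _) hKW 2) (by linarith)
      _ = _ := by rw [hnv]; ring
  have hB1 : 1 ≤ B := by
    obtain ⟨i, hi, hQi⟩ := hQ
    have h1 : (1 : ℝ) ≤ |(Q i : ℝ)| := by exact_mod_cast Int.one_le_abs hQi
    exact h1.trans ((Finset.single_le_sum (f := fun i => |(Q i : ℝ)|)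
      (fun _ _ => abs_nonneg _) hi).trans hB)
  have hlogB : Real.log (2 * B) ≤ 2 * l := by
    have h1 : 2 * B ≤ (n : ℝ) ^ 2 := by
      have h2 : 4 ≤ v ^ 6 := le_trans (by linarith) (le_self_pow₀ hv1 (by norm_num))
      calc 2 * B ≤ 4 * v ^ 22 := by linarith
        _ ≤ v ^ 6 * v ^ 22 := mul_le_mul_of_nonneg_right h2 (by positivity)
        _ = _ := by rw [hnv]; ring
    have := Real.log_le_log (by linarith) h1
    rw [Real.log_pow] at this
    exact_mod_cast this
  have hjb : 2 + √W * Real.log (2 * B) ≤ 2 + Y.card / 10 := by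
    have := mul_le_mul_of_nonneg_left hlogB (Real.sqrt_nonneg W)
    linarith
  have hx1 : v ^ 14 / 2 ≤ (n : ℝ) - 1 / 24 := by rw [hnv]; linarith
  have hη0 : 0 ≤ B * Real.exp (-c * (v ^ 7 / 2)) := mul_nonneg (by linarith) (Real.exp_pos _).le
  have hα : (0 : ℝ) < ((R - h : ℕ) : ℝ) := by
    have : 0 < R - h := by omega
    exact_mod_cast this
  obtain ⟨j, hj, hfin⟩ := keyA hV hS hT hC hL T s Q ((R - h : ℕ) : ℝ) W B (R * W)
    (n - 1 / 24) (B * Real.exp (-c * (v ^ 7 / 2))) R Y hα hW1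
    (by
      intro i hi i' hi' hne
      have h1 : (s i : ℝ) - s i' = ((R - h : ℕ) : ℝ) * ((i : ℝ) - i') := by
        simp only [hs, Nat.cast_add, Nat.cast_mul]; ring
      rw [h1, abs_mul, abs_of_pos hα]
      have h2 : (1 : ℝ) ≤ |(i : ℝ) - i'| := by
        have : (1 : ℤ) ≤ |(i : ℤ) - i'| := Int.one_le_abs (sub_ne_zero.mpr (by exact_mod_cast hne))
        exact_mod_cast this
      have h3 : |(i : ℝ) - i'| ≤ W := by
        have h4 : (i : ℝ) ≤ W := by exact_mod_cast (hTW i hi).2.2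
        have h5 : (i' : ℝ) ≤ W := by exact_mod_cast (hTW i' hi').2.2
        have h6 : (0 : ℝ) ≤ i := by positivity
        have h7 : (0 : ℝ) ≤ i' := by positivity
        rw [abs_le]; constructor <;> linarith
      exact ⟨le_mul_of_one_le_right hα.le h2, mul_le_mul_of_nonneg_left h3 hα.le⟩)
    hQ hB h0 hsS (one_le_mul_of_one_le_of_one_le hR1 hW1) hR1 hYR (by nlinarith) hη0
    (by
      intro y hy
      have h1 := approx_core T Q B κ (Real.exp (-c * (v ^ 7 / 2))) (fun p => mm p y)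
        (Real.exp_pos _).le hB h0 (hrel y hy) (by
          intro p hp
          refine (hm _ (hm' p hp y hy)).2.2.trans (Real.exp_le_exp.mpr ?_)
          have h2 : v ^ 7 / 2 ≤ √(mm p y) := by
            refine Real.le_sqrt_of_sq_le ?_
            have := (hnode p hp y hy).2.1
            rw [hnv] at this
            calc (v ^ 7 / 2) ^ 2 = v ^ 14 / 4 := by ring
              _ ≤ _ := this
          nlinarith)
      refine le_trans (le_of_eq ?_) h1
      congr 1
      refine Finset.sum_congr rfl fun p hp => ?_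
      rw [(hnode p hp y hy).1]
      congr 2
      ring)
    (by
      have h1 : 2 + √W * Real.log (2 * B) ≤ v ^ 2 := by linarith
      have h2 : 0 ≤ 2 + √W * Real.log (2 * B) := by
        have := Real.log_nonneg (show 1 ≤ 2 * B by linarith)
        positivity
      have h3 : v ^ 7 / 2 ≤ √((n : ℝ) - 1 / 24) := by
        refine Real.le_sqrt_of_sq_le ?_
        calc (v ^ 7 / 2) ^ 2 = v ^ 14 / 4 := by ring
          _ ≤ _ := by linarith
      calc _ ≤ 200 * (v ^ 2) ^ 3 := by gcongr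
        _ = 400 * v ^ 6 / 2 := by ring
        _ ≤ v * v ^ 6 / 2 := by gcongr
        _ = v ^ 7 / 2 := by ring
        _ ≤ _ := h3)
  have hnum := numA c v B (n - 1 / 24) (R * W) R (B * Real.exp (-c * (v ^ 7 / 2))) j Y.card
    hv400 hvc hB22 hx1 (by rw [hnv]; linarith) (by positivity) hRW (by positivity) hR hJ11
    (hJR.trans hR) (hj.trans hjb) hη0 le_rfl
  linarith

end Pool.Agent.MP_9cfd17_nt
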